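import Pool.Agent.ASO.StmtsH
import Pool.Agent.AT3.Stmts3
import Pool.Agent.Helper97_K9.NZA
import Pool.Agent.Helper50_PP.Ffa
import Pool.Agent.Helper75_PP.Quo
import Pool.Agent.Helper15_WRA.Gal

/-!
# Squad ASO, row HTA: the degree of the characters of `γ`
-/

open scoped BigOperators

noncomputable section

namespace Pool.Agent.PP.SO.H97

open Pool.Agent.Helper51_AWC Pool.Agent.Helper79_WRA Pool.Agent.PP Pool.Agent.PP.KF
open Pool.Agent.PP.K9 Pool.Agent.PP.K9.H97 Pool.Agent.PP.H75 Pool.Agent.PP.T3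
open Pool.Agent.PP.SO

attribute [local instance] Ideal.Quotient.field

/-- a character which vanishes at the singular elements has a degree divisible by the order of a
Sylow subgroup -/
theorem syl_dvd (ℓ : ℕ) [Fact ℓ.Prime] (H : Type) [Group H] [Finite H] {κ : H → ℂ}
    (hκ : κ ∈ Irr H) (hv : ∀ x, ¬ Reg ℓ x → κ x = 0) :
    ∃ a : ℕ, κ 1 = ((ℓ ^ (Nat.card H).factorization ℓ * a : ℕ) : ℂ) := by
  classical
  obtain ⟨n, ρ, hρ, rfl⟩ := hκ
  obtain ⟨S⟩ : Nonempty (Sylow ℓ H) := inferInstance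
  have hS := S.card_eq_multiplicity
  have := Fintype.ofFinite (S : Subgroup H)
  have hne : (Nat.card (S : Subgroup H) : ℂ) ≠ 0 := by exact_mod_cast Nat.card_pos.ne'
  have hinv : Invertible (Nat.card (S : Subgroup H) : ℂ) := invertibleOfNonzero hne
  obtain ⟨ρ', hρ'⟩ : ∃ ρ' : Representation ℂ (S : Subgroup H) (Fin n → ℂ),
      ρ' = ρ.comp (S : Subgroup H).subtype := ⟨_, rfl⟩
  have h1 := Representation.card_inv_mul_sum_char_eq_finrank ρ'
  refine ⟨Module.finrank ℂ (Representation.invariants ρ'), ?_⟩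
  have h2 : ∀ s : (S : Subgroup H), s ≠ 1 → ρ'.character s = 0 := by
    intro s hs
    have h0 : ρ'.character s = ρ.character (s : H) := by rw [hρ']; rfl
    rw [h0]
    refine hv _ fun hr => hs ?_
    obtain ⟨k, hk⟩ := S.isPGroup' s
    have h3 : orderOf (s : H) ∣ ℓ ^ k := by
      apply orderOf_dvd_of_pow_eq_one
      have := congrArg Subtype.val hk
      simpa using this
    have h4 : Nat.Coprime (ℓ ^ k) (orderOf (s : H)) := Nat.Coprime.pow_left k (Nat.Coprime.symm hr)
    have h5 := Nat.eq_one_of_dvd_coprimes h4 h3 dvd_rfl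
    exact Subtype.ext (orderOf_eq_one_iff.1 h5)
  rw [Finset.sum_eq_single_of_mem (1 : (S : Subgroup H)) (Finset.mem_univ _)
    (fun s _ hs => h2 s hs)] at h1
  have h3 : ρ'.character 1 = ρ.character 1 := by rw [hρ']; rfl
  rw [h3, inv_mul_eq_iff_eq_mul₀ hne, hS] at h1
  rw [h1]
  push_cast
  rfl

theorem hta (psg : T3.PsgStmt) (pug : K9.PugStmt) (dzo : K9.DzoStmt) (psi : K9.PsiStmt) : HTaStmt := by
  intro ℓ hℓ M _ hM G _ _ e V γ hL d hd
  have hF : GoodF ℓ (FF M) := H50.fld ℓ Fact.out M hM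
  obtain ⟨C, hC⟩ : ∃ C : Subgroup G, C = Subgroup.centralizer (V : Set G) := ⟨_, rfl⟩
  have hVC : V ≤ C := by
    intro v hv
    rw [hC, Subgroup.mem_centralizer_iff]
    intro w hw
    exact hL.ab w hw v hv
  have hbx : Bx C γ := by rw [hC]; exact hL.gam
  have hVz : V.subgroupOf C ≤ Subgroup.center C := by
    intro v hv
    rw [Subgroup.mem_center_iff]
    intro g
    have h1 : (g : G) ∈ Subgroup.centralizer (V : Set G) := by rw [← hC]; exact g.2
    exact Subtype.ext (Subgroup.mem_centralizer_iff.1 h1 v hv).symm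
  have hVcard : Nat.card (V.subgroupOf C) = Nat.card V :=
    Nat.card_congr (Subgroup.subgroupOfEquivOfLe hVC).toEquiv
  have hbrcl : IsCl (fun t : C => br V e t) := by
    intro x y
    have h1 : ∀ t : C, br V e t = e t := fun t =>
      H66.br_of_mem (by rw [← hC]; exact t.2)
    have h2 := h1 (y * x * y⁻¹)
    have h3 := h1 x
    change br V e ((y * x * y⁻¹ : C) : G) = br V e (x : G)
    rw [h2, h3]
    exact hL.blk.1.1 _ _
  have hmul : mulF (fun t : C => br V e t) (fun t : C => γ t) = fun t : C => γ t := by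
    have hs : ∀ x, x ∉ C → br V e x = 0 := fun x hx => H66.br_of_not_mem (by rw [← hC]; exact hx)
    rw [← mulF_res C γ hs, hL.und]
  have hT : Tp ℓ (fun t : C => γ t) (V.subgroupOf C) := by
    refine ⟨hL.tp.pg.of_equiv (Subgroup.subgroupOfEquivOfLe hVC).symm, ?_, ?_⟩
    · have hne : (fun t : C => γ t) ≠ 0 := hbx.blk.2.1
      obtain ⟨t, ht⟩ := Function.ne_iff.1 hne
      refine ⟨t, ?_, ht⟩
      rw [Subgroup.mem_centralizer_iff]
      intro v hv
      exact (Subgroup.mem_center_iff.1 (hVz hv) t).symm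
    · intro Q hQ hQg
      have h1 := gd_of_mul hF hbrcl hbx.blk.1.1 hmul hQ hQg
      have h2 : Gd (fun t : C => e t) Q := by
        obtain ⟨g, hg1, hg2⟩ := h1
        refine ⟨g, hg1, ?_⟩
        change br V e (g : G) ≠ 0 at hg2
        rw [H66.br_of_mem (by rw [← hC]; exact g.2)] at hg2
        exact hg2
      have hcard : Nat.card (Q.map C.subtype) = Nat.card Q :=
        (Nat.card_congr (Q.equivMapOfInjective C.subtype C.subtype_injective).toEquiv).symm
      have h3 := hL.tp.mx _ (hQ.map C.subtype) (gd_map h2)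
      rw [hcard] at h3
      rw [hVcard]
      exact h3
  subst hC
  -- the quotient by `V`
  obtain ⟨K, hK⟩ : ∃ K : Subgroup (Subgroup.centralizer (V : Set G)),
      K = V.subgroupOf (Subgroup.centralizer (V : Set G)) := ⟨_, rfl⟩
  rw [← hK] at hVz hVcard hT
  obtain ⟨b, hb⟩ : ∃ b : Subgroup.centralizer (V : Set G) → FF M,
      b = fun t : Subgroup.centralizer (V : Set G) => γ t := ⟨_, rfl⟩
  have hbb : IsBlk b := by rw [hb]; exact hbx.blk
  rw [← hb] at hd hT
  have hn : K.Normal := ⟨fun n hn g => by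
    have h1 := Subgroup.mem_center_iff.1 (hVz hn) g
    rw [h1, mul_assoc, mul_inv_cancel, mul_one]
    exact hn⟩
  obtain ⟨p, hpd⟩ : ∃ p : Subgroup.centralizer (V : Set G) →*
    Subgroup.centralizer (V : Set G) ⧸ K, p = QuotientGroup.mk' K := ⟨_, rfl⟩
  have hker : p.ker = K := by rw [hpd, QuotientGroup.ker_mk']
  have hp : Function.Surjective p := by rw [hpd]; exact QuotientGroup.mk'_surjective K
  have hkp : IsPGroup ℓ p.ker := by rw [hker]; exact hT.pg
  have hkc : p.ker ≤ Subgroup.center _ := by rw [hker]; exact hVz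
  have hb' : IsBlk (H75.push p b) := psg ℓ (FF M) hF _ _ p hp hkc hkp b hbb
  have hgood : ∀ Q : Subgroup (Subgroup.centralizer (V : Set G) ⧸ K), IsPGroup ℓ Q →
      Gd (H75.push p b) Q → Q = ⊥ := by
    intro Q hQ hQb
    have h1 : Q = (Q.comap p).map p := (Subgroup.map_comap_eq_self_of_surjective hp Q).symm
    have hcard : Nat.card (Q.comap p) = Nat.card K * Nat.card Q := by
      have := H75.card_comap (p := p) hp Q
      rw [this, hker]
    have h2 : IsPGroup ℓ (Q.comap p) := by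
      obtain ⟨n, hn⟩ := (IsPGroup.iff_card).1 hQ
      obtain ⟨m, hm⟩ := (IsPGroup.iff_card).1 hT.pg
      exact IsPGroup.of_card (n := m + n) (by rw [hcard, hn, hm, pow_add])
    have h3 : p.ker ≤ Q.comap p := by
      intro x hx
      rw [Subgroup.mem_comap, MonoidHom.mem_ker.1 hx]
      exact Q.one_mem
    rw [h1] at hQb
    have h4 := (pug ℓ (FF M) hF _ _ p hp hkp b hbb.1 _ h3 h2).2 hQb
    have h6 := hT.mx _ h2 h4
    rw [hcard] at h6
    have h7 : 0 < Nat.card K := Nat.card_pos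
    have h8 : 0 < Nat.card Q := Nat.card_pos
    have h9 : Nat.card Q = 1 := by
      have : Nat.card K * Nat.card Q ≤ Nat.card K * 1 := by rw [mul_one]; exact h6
      have := Nat.le_of_mul_le_mul_left this h7
      omega
    exact Subgroup.card_eq_one.1 h9
  obtain ⟨κ₀, hκ₀, hrc⟩ := dzo ℓ M hM _ (H75.push p b) hb' hgood
  obtain ⟨hpsi1, hpsi2⟩ := psi M _ _ p hp b hbb.1.1
  rw [hκ₀] at hpsi1
  have hκ₀B : κ₀ ∈ Irr (Subgroup.centralizer (V : Set G) ⧸ K) ∧
      (fun a => κ₀ (p a)) ∈ IrrE M b := by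
    have : κ₀ ∈ ({κ₀} : Set (Subgroup.centralizer (V : Set G) ⧸ K → ℂ)) := rfl
    rw [hpsi1] at this
    exact this
  have hdeg : κ₀ 1 = (d : ℂ) := by
    have h1 := hd.2 _ hκ₀B.2
    change κ₀ (p 1) = d at h1
    rw [map_one] at h1
    exact h1
  -- the order
  obtain ⟨a, ha⟩ := syl_dvd ℓ _ hκ₀B.1 hrc.sg
  obtain ⟨u, hu⟩ := Pool.Agent.Helper79_WRA.H15.codeg_nat hκ₀B.1
  have hcK : Nat.card (Subgroup.centralizer (V : Set G)) =
      Nat.card K * Nat.card (Subgroup.centralizer (V : Set G) ⧸ K) := by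
    rw [mul_comm]
    exact Subgroup.card_eq_card_quotient_mul_card_subgroup K
  obtain ⟨N, hN⟩ : ∃ N, N = Nat.card (Subgroup.centralizer (V : Set G) ⧸ K) := ⟨_, rfl⟩
  rw [← hN] at ha hu hcK
  have hN0 : N ≠ 0 := by rw [hN]; exact Nat.card_pos.ne'
  rw [hdeg] at ha hu
  have hd0 : (d : ℂ) ≠ 0 := by exact_mod_cast hd.1.ne'
  have h1 : N = d * u := by
    have : (N : ℂ) = d * u := by rw [← hu]; field_simp
    exact_mod_cast this
  have h2 : d = ℓ ^ N.factorization ℓ * a := by exact_mod_cast ha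
  refine ⟨u, ?_, ?_⟩
  · rintro ⟨w, hw⟩
    apply Nat.pow_succ_factorization_not_dvd hN0 hℓ.out
    refine ⟨a * w, ?_⟩
    rw [pow_succ]
    calc N = d * u := h1
      _ = (ℓ ^ N.factorization ℓ * a) * (ℓ * w) := by rw [← h2, hw]
      _ = _ := by ring
  · rw [hcK, hVcard, h1, mul_assoc]

end Pool.Agent.PP.SO.H97
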