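import Pool.Agent.ASO.Stmts1

/-!
ASO, row BRD: identities in the braid group.
-/

namespace Pool.Agent.PP.SO.H97

theorem brd : BrdStmt := by
  intro Γ _ a b c A B C h1 h2 h3 hA hB hC
  have r1 : SemiconjBy a A A := by
    rw [hA]
    exact (Commute.refl a).mul_right (Commute.inv_right h3)
  have r2 : SemiconjBy b A B⁻¹ := by
    rw [SemiconjBy, hA, hB]
    group
  have h4 : B * a = c * B := by
    have h5 : B * a * (b * a) = c * B * (b * a) := by
      calc B * a * (b * a) = b * c * a⁻¹ * b⁻¹ * (a * b * a) := by rw [hB]; group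
        _ = b * c * a⁻¹ * b⁻¹ * (b * a * b) := by rw [h1]
        _ = b * c * b := by group
        _ = c * b * c := h2.symm
        _ = c * B * (b * a) := by rw [hB]; group
    exact mul_right_cancel h5
  have h6 : B * a⁻¹ = c⁻¹ * B := by
    rw [mul_inv_eq_iff_eq_mul, mul_assoc, h4, inv_mul_cancel_left]
  have r3 : SemiconjBy a B (A * B) := by
    rw [SemiconjBy, hA, mul_assoc a c⁻¹ B, ← h6]
    group
  have r5 : SemiconjBy c B (B * A) := by
    rw [SemiconjBy, hA, ← h4]
    group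
  have r4 : SemiconjBy b B (B * A * B) := by
    have e1 : SemiconjBy (a * b * a) A (A * B)⁻¹ := (r3.inv_right.mul_left r2).mul_left r1
    have e2 : SemiconjBy (b * a * b) A (B⁻¹ * (b * B * b⁻¹))⁻¹ := by
      have e3 : SemiconjBy b (A * B) (B⁻¹ * (b * B * b⁻¹)) := by
        refine r2.mul_right ?_
        rw [SemiconjBy]
        group
      exact (e3.inv_right.mul_left r3.inv_right).mul_left r2
    rw [SemiconjBy, h1, e2.eq] at e1
    have e4 := inv_injective (mul_right_cancel e1)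
    have e5 : b * B * b⁻¹ = B * (A * B) := by
      rw [← e4]
      group
    rw [SemiconjBy, ← mul_inv_eq_iff_eq_mul, e5, mul_assoc]
  -- `C` commutes with `a` and `b`
  have ca : SemiconjBy a C C := by
    have := (((r3.inv_right.mul_right r1.inv_right).mul_right r3).mul_right r1)
    rw [← hC] at this
    have e : (A * B)⁻¹ * A⁻¹ * (A * B) * A = C := by rw [hC]; group
    rwa [e] at this
  have cb : SemiconjBy b C C := by
    have := (((r4.inv_right.mul_right r2.inv_right).mul_right r4).mul_right r2)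
    rw [← hC] at this
    have e : (B * A * B)⁻¹ * B⁻¹⁻¹ * (B * A * B) * B⁻¹ = C := by rw [hC]; group
    rwa [e] at this
  -- `Δ = a b a`
  obtain ⟨Dl, hD⟩ : ∃ Dl : Γ, Dl = a * b * a := ⟨_, rfl⟩
  have da : SemiconjBy Dl a b := by
    rw [SemiconjBy, hD]
    calc a * b * a * a = (b * a * b) * a := by rw [h1]
      _ = b * (a * b * a) := by group
  have db : SemiconjBy Dl b a := by
    rw [SemiconjBy, hD]
    calc a * b * a * b = a * (b * a * b) := by group
      _ = a * (a * b * a) := by rw [h1]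
  have dda : SemiconjBy (Dl * Dl) a a := db.mul_left da
  have ddb : SemiconjBy (Dl * Dl) b b := da.mul_left db
  have hw : a * b * c = A * B * Dl := by
    calc a * b * c = a * (b * (c * a⁻¹) * b⁻¹) * b * a := by group
      _ = a * B * b * a := by rw [hB]
      _ = A * B * a * b * a := by rw [r3.eq]
      _ = A * B * Dl := by rw [hD]; group
  have dA : SemiconjBy Dl A (A * B)⁻¹ := by
    rw [hD]; exact (r3.inv_right.mul_left r2).mul_left r1
  have dB : SemiconjBy Dl B (A * A * B) := by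
    have e1 : SemiconjBy b (A * B) (B⁻¹ * (B * A * B)) := r2.mul_right r4
    have e2 : B⁻¹ * (B * A * B) = A * B := by group
    rw [e2] at e1
    have e3 : SemiconjBy a (A * B) (A * (A * B)) := r1.mul_right r3
    have e4 : A * (A * B) = A * A * B := by group
    rw [e4] at e3
    rw [hD]
    exact (e3.mul_left e1).mul_left r3
  have ab3 : (a * b) ^ 3 = Dl * Dl := by
    calc (a * b) ^ 3 = (a * b * a) * (b * a * b) := by
          simp only [pow_succ, pow_zero, one_mul, mul_assoc]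
      _ = Dl * Dl := by rw [← h1, hD]
  have ab6 : (a * b) ^ 6 = Dl * Dl * (Dl * Dl) := by
    rw [show (6 : ℕ) = 3 + 3 from rfl, pow_add, ab3]
  have dAB : SemiconjBy Dl (A * B) ((A * B)⁻¹ * (A * A * B)) := dA.mul_right dB
  have w2 : (a * b * c) * (a * b * c) = A * A * B * (Dl * Dl) := by
    rw [hw]
    calc A * B * Dl * (A * B * Dl) = A * B * (Dl * (A * B)) * Dl := by group
      _ = A * B * ((A * B)⁻¹ * (A * A * B) * Dl) * Dl := by rw [dAB.eq]
      _ = A * A * B * (Dl * Dl) := by group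
  have ddA : SemiconjBy (Dl * Dl) A (B⁻¹ * A⁻¹ * B) := by
    have e1 := dAB.inv_right.mul_left dA
    have e2 : ((A * B)⁻¹ * (A * A * B))⁻¹ = B⁻¹ * A⁻¹ * B := by group
    rwa [e2] at e1
  have ddB : SemiconjBy (Dl * Dl) B (B⁻¹ * A⁻¹ * B⁻¹ * A * B) := by
    have e1 : SemiconjBy Dl (A * A * B) ((A * B)⁻¹ * (A * B)⁻¹ * (A * A * B)) :=
      (dA.mul_right dA).mul_right dB
    have e2 := e1.mul_left dB
    have e3 : (A * B)⁻¹ * (A * B)⁻¹ * (A * A * B) = B⁻¹ * A⁻¹ * B⁻¹ * A * B := by group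
    rwa [e3] at e2
  have ddAAB : SemiconjBy (Dl * Dl) (A * A * B)
      (B⁻¹ * A⁻¹ * B * (B⁻¹ * A⁻¹ * B) * (B⁻¹ * A⁻¹ * B⁻¹ * A * B)) :=
    (ddA.mul_right ddA).mul_right ddB
  have w4 : (a * b * c) ^ 4 = C⁻¹ * (a * b) ^ 6 := by
    have e0 : (a * b * c) ^ 4 = (a * b * c) * (a * b * c) * ((a * b * c) * (a * b * c)) := by
      simp only [pow_succ, pow_zero, one_mul, mul_assoc]
    rw [e0, w2, ab6, hC]
    calc A * A * B * (Dl * Dl) * (A * A * B * (Dl * Dl))
        = A * A * B * ((Dl * Dl) * (A * A * B)) * (Dl * Dl) := by group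
      _ = A * A * B * (B⁻¹ * A⁻¹ * B * (B⁻¹ * A⁻¹ * B) * (B⁻¹ * A⁻¹ * B⁻¹ * A * B) *
            (Dl * Dl)) * (Dl * Dl) := by rw [ddAAB.eq]
      _ = (B⁻¹ * A⁻¹ * B * A)⁻¹ * (Dl * Dl * (Dl * Dl)) := by group
  have k6a : SemiconjBy ((a * b) ^ 6) a a := by rw [ab6]; exact dda.mul_left dda
  have k6b : SemiconjBy ((a * b) ^ 6) b b := by rw [ab6]; exact ddb.mul_left ddb
  have Ca : Commute C⁻¹ a := Commute.inv_left (Commute.symm ca)
  have Cb : Commute C⁻¹ b := Commute.inv_left (Commute.symm cb)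
  have w4a : SemiconjBy ((a * b * c) ^ 4) a a := by
    rw [w4]; exact SemiconjBy.mul_left Ca k6a
  have w4b : SemiconjBy ((a * b * c) ^ 4) b b := by
    rw [w4]; exact SemiconjBy.mul_left Cb k6b
  have wb : a * b * c * b = c * (a * b * c) := by
    calc a * b * c * b = a * (b * c * b) := by group
      _ = a * (c * b * c) := by rw [h2]
      _ = (a * c) * b * c := by group
      _ = (c * a) * b * c := by rw [h3]
      _ = c * (a * b * c) := by group
  have w4c : SemiconjBy ((a * b * c) ^ 4) c c := by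
    have e1 : c = (a * b * c) * b * (a * b * c)⁻¹ := by
      rw [eq_mul_inv_iff_mul_eq, wb]
    have e2 : Commute ((a * b * c) ^ 4) (a * b * c) := (Commute.refl _).pow_left 4
    have e3 : Commute ((a * b * c) ^ 4) ((a * b * c) * b * (a * b * c)⁻¹) :=
      (e2.mul_right w4b).mul_right e2.inv_right
    rw [← e1] at e3
    exact e3
  refine ⟨?_, ?_, ?_, ?_, h4, ?_, ca, cb, ?_, k6a, k6b, w4a, w4b, w4c⟩
  · rw [r1.eq]; group
  · rw [r3.eq]; group
  · rw [r2.eq]; group
  · rw [r4.eq]; group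
  · rw [r5.eq]; group
  · rw [w4]; group

end Pool.Agent.PP.SO.H97
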